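import Pool.Agent.QSX.StmtsV

set_option autoImplicit false

namespace Pool.Agent.QSX.H88

open Matrix Finset Pool.Agent.QSX

/-- GNX -/
theorem gnx (hB : BchStmt) (_hL : LgmStmt) : GnxStmt := by
  intro X hX n hn
  unfold Dat.Split.Gam at hn
  induction hn using Subgroup.closure_induction with
  | mem g hg =>
    obtain ⟨l, x, rfl⟩ := hg
    refine ⟨(x : ℝ) • hX.e l, ?_, rfl⟩
    apply Submodule.smul_mem
    rw [← hX.span_e]
    exact Submodule.subset_span ⟨l, rfl⟩
  | one =>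
    refine ⟨0, Submodule.zero_mem _, ?_⟩
    apply Units.ext
    rw [ue_val SU.zero, mexp_zero, Units.val_one]
  | mul g h _ _ ihg ihh =>
    obtain ⟨x, hx, rfl⟩ := ihg
    obtain ⟨y, hy, rfl⟩ := ihh
    exact hB ℝ X.m X.n X.su X.lie x hx y hy
  | inv g _ ih =>
    obtain ⟨x, hx, rfl⟩ := ih
    refine ⟨-x, Submodule.neg_mem _ hx, ?_⟩
    apply Units.ext
    rw [ue_inv_val (X.su x hx), ue_val (X.su x hx).neg]

end Pool.Agent.QSX.H88
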