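import Pool.Agent.QSX.StmtsW

set_option autoImplicit false

namespace Pool.Agent.QSX.H88

open Matrix Finset Pool.Agent.QSX Filter Topology

theorem lmp_aux (ω : Ultrafilter ℕ) (V : Type) [NormedAddCommGroup V] [NormedSpace ℝ V]
    [FiniteDimensional ℝ V] (r m : ℕ) (b : Module.Basis (Fin r) ℝ V)
    (Q : ℕ → V →ₗ[ℝ] (Fin m → ℝ)) (K : ℝ) (hQ : ∀ s a i, |Q s a i| ≤ K * ‖a‖) :
    ∃ P : V →ₗ[ℝ] (Fin m → ℝ), ∀ ε > (0 : ℝ), ∀ᶠ s in (ω : Filter ℕ), ∀ a : V, ‖a‖ ≤ 1 →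
      ∀ i, |Q s a i - P a i| ≤ ε := by
  classical
  have hlim : ∀ k (i : Fin m), ∃ p : ℝ, Tendsto (fun s => Q s (b k) i) (ω : Filter ℕ) (𝓝 p) := by
    intro k i
    have hc : IsCompact (Set.Icc (-(K * ‖b k‖)) (K * ‖b k‖)) := isCompact_Icc
    have h1 : ((ω.map (fun s => Q s (b k) i) : Ultrafilter ℝ) : Filter ℝ) ≤
        𝓟 (Set.Icc (-(K * ‖b k‖)) (K * ‖b k‖)) := by
      rw [Ultrafilter.coe_map, le_principal_iff, Filter.mem_map]
      exact univ_mem' fun s => abs_le.mp (hQ s (b k) i)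
    obtain ⟨p, _, hp⟩ := hc.ultrafilter_le_nhds _ h1
    exact ⟨p, hp⟩
  choose p hp using hlim
  obtain ⟨P, hP⟩ : ∃ P : V →ₗ[ℝ] (Fin m → ℝ), ∀ k, P (b k) = fun i => p k i :=
    ⟨b.constr ℝ (fun k i => p k i), fun k => b.constr_basis ℝ _ k⟩
  have hsum : ∀ (T : V →ₗ[ℝ] (Fin m → ℝ)) (a : V) (i : Fin m),
      T a i = ∑ k, b.repr a k * T (b k) i := by
    intro T a i
    have h1 : T a = ∑ k, b.repr a k • T (b k) := by
      conv_lhs => rw [← b.sum_repr a]
      rw [map_sum]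
      exact Finset.sum_congr rfl fun k _ => by rw [map_smul]
    rw [h1, Finset.sum_apply]
    rfl
  obtain ⟨κ, hκ0, hκ⟩ : ∃ κ : Fin r → ℝ, (∀ k, 0 ≤ κ k) ∧
      ∀ k (a : V), ‖a‖ ≤ 1 → |b.repr a k| ≤ κ k := by
    refine ⟨fun k => ‖LinearMap.toContinuousLinearMap (b.coord k)‖, fun k => norm_nonneg _, ?_⟩
    intro k a ha
    have h1 := (LinearMap.toContinuousLinearMap (b.coord k)).le_opNorm a
    have h2 : ‖LinearMap.toContinuousLinearMap (b.coord k)‖ * ‖a‖ ≤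
        ‖LinearMap.toContinuousLinearMap (b.coord k)‖ * 1 :=
      mul_le_mul_of_nonneg_left ha (norm_nonneg _)
    have h3 : ‖(LinearMap.toContinuousLinearMap (b.coord k)) a‖ = |b.repr a k| := by
      rw [LinearMap.coe_toContinuousLinearMap', Module.Basis.coord_apply, Real.norm_eq_abs]
    rw [h3] at h1
    linarith
  have hdiff : ∀ s (a : V) (i : Fin m), Q s a i - P a i =
      ∑ k, b.repr a k * (Q s (b k) i - p k i) := by
    intro s a i
    rw [hsum (Q s) a i, hsum P a i, ← Finset.sum_sub_distrib]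
    refine Finset.sum_congr rfl fun k _ => ?_
    rw [hP k]
    ring
  refine ⟨P, ?_⟩
  intro ε hε
  have hev : ∀ i : Fin m, ∀ᶠ s in (ω : Filter ℕ), ∑ k, κ k * |Q s (b k) i - p k i| ≤ ε := by
    intro i
    have h1 : Tendsto (fun s => ∑ k, κ k * |Q s (b k) i - p k i|) (ω : Filter ℕ) (𝓝 0) := by
      have h2 : Tendsto (fun s => ∑ k, κ k * |Q s (b k) i - p k i|) (ω : Filter ℕ)
          (𝓝 (∑ k, κ k * |p k i - p k i|)) := by
        apply tendsto_finsetSum
        intro k _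
        exact (((hp k i).sub tendsto_const_nhds).abs).const_mul _
      have h3 : (∑ k, κ k * |p k i - p k i|) = 0 := by simp
      rwa [h3] at h2
    exact (h1.eventually (gt_mem_nhds hε)).mono fun s hs => le_of_lt hs
  filter_upwards [eventually_all.mpr hev] with s hs a ha i
  rw [hdiff s a i]
  calc |∑ k, b.repr a k * (Q s (b k) i - p k i)|
      ≤ ∑ k, |b.repr a k * (Q s (b k) i - p k i)| := Finset.abs_sum_le_sum_abs _ _
    _ ≤ ∑ k, κ k * |Q s (b k) i - p k i| := by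
        apply Finset.sum_le_sum
        intro k _
        rw [abs_mul]
        exact mul_le_mul_of_nonneg_right (hκ k a ha) (abs_nonneg _)
    _ ≤ ε := hs i

/-- LMP -/
theorem lmp : LmpStmt := by
  intro ω V _ _ _ m Q K hQ
  exact lmp_aux ω V _ m (Module.finBasis ℝ V) Q K hQ

end Pool.Agent.QSX.H88
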